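import Pool.Agent.H.MP_848d58_co.C

namespace Pool.Agent.Results.MP_848d58_co.All

open Pool.Agent.H.MP_848d58_co
open scoped Pointwise

theorem result (G : Type) [Group G] [Fintype G] [DecidableEq G] [Nontrivial G] (m n : ℕ)
    (hm : 0 < m) (hmn : m < n) :
    ∃ (V : Type) (_ : Fintype V) (_ : DecidableEq V) (_ : MulAction G V) (K : Set (Finset V)),
      FreeCx G K ∧ IsLeast {k | IndLe G K k} m ∧
        IsLeast {k | XindLe G K k} n :=
  complexes hm hmn

end Pool.Agent.Results.MP_848d58_co.All
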